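import Mathlib

set_option autoImplicit false

open scoped Pointwise

namespace Pool.Agent.W_MP_5bfb0a_al

universe u

/-- A finite set `s` is separated at `v` (relative to the subgroup `L`) if the cosets `L v x`,
`x ∈ s`, are pairwise different. -/
def Sep {G : Type u} [Group G] (L : Subgroup G) (v : G) (s : Finset G) : Prop :=
  ∀ x ∈ s, ∀ y ∈ s, x ≠ y → v * (x * y⁻¹) * v⁻¹ ∉ L

/-- The points at which every separated subset of `L` has at most `m` elements. -/
def Bdd {G : Type u} [Group G] (L : Subgroup G) (m : ℕ) : Set G :=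
  {v | ∀ s : Finset G, (s : Set G) ⊆ L → Sep L v s → s.card ≤ m}

section alg

variable {G : Type u} [Group G] (L : Subgroup G)

theorem mem_bdd_of_finite (v : G)
    (h : ((L.map (MulAut.conj v⁻¹).toMonoidHom).subgroupOf L).FiniteIndex) :
    ∃ m, v ∈ Bdd L m := by
  classical
  set N := (L.map (MulAut.conj v⁻¹).toMonoidHom).subgroupOf L with hN
  have : N.FiniteIndex := h
  have : Finite (L ⧸ N) := inferInstance
  have : Fintype (L ⧸ N) := Fintype.ofFinite _
  refine ⟨Fintype.card (L ⧸ N), ?_⟩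
  intro s hs hsep
  let f : {x // x ∈ s} → (L ⧸ N) := fun x => QuotientGroup.mk (⟨(x : G)⁻¹, L.inv_mem (hs x.2)⟩ : L)
  have hf : Function.Injective f := by
    intro x y hxy
    by_contra hne
    have hne' : (x : G) ≠ y := fun h => hne (Subtype.ext h)
    have h1 := hsep x x.2 y y.2 hne'
    have h2 : (⟨(x : G)⁻¹, L.inv_mem (hs x.2)⟩ : L)⁻¹ * ⟨(y : G)⁻¹, L.inv_mem (hs y.2)⟩ ∈ N :=
      QuotientGroup.eq.mp hxy
    rw [hN, Subgroup.mem_subgroupOf, Subgroup.mem_map] at h2
    obtain ⟨z, hz, hz'⟩ := h2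
    apply h1
    have h3 : (x : G) * (y : G)⁻¹ = v⁻¹ * z * v := by
      have : (MulAut.conj v⁻¹).toMonoidHom z = (x : G) * (y : G)⁻¹ := by
        rw [hz']
        simp
      rw [← this]
      simp
    rw [h3]
    have h4 : v * (v⁻¹ * z * v) * v⁻¹ = z := by group
    rw [h4]
    exact hz
  have := Fintype.card_le_of_injective f hf
  simpa using this

theorem exists_rep_of_max (v : G) (s : Finset G) (hs : (s : Set G) ⊆ L) (hsep : Sep L v s)
    (hmax : ∀ t : Finset G, (t : Set G) ⊆ L → Sep L v t → t.card ≤ s.card) (l : G) (hl : l ∈ L) :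
    ∃ f ∈ s, v * (l * f⁻¹) * v⁻¹ ∈ L := by
  classical
  by_contra hcon
  push Not at hcon
  have hls : l ∉ s := by
    intro hmem
    apply hcon l hmem
    simp
  have h1 := hmax (insert l s) (by
    intro x hx
    rw [Finset.coe_insert, Set.mem_insert_iff] at hx
    rcases hx with rfl | hx
    · exact hl
    · exact hs hx) (by
    intro x hx y hy hxy
    rw [Finset.mem_insert] at hx hy
    rcases hx with rfl | hx
    · rcases hy with rfl | hy
      · exact absurd rfl hxy
      · exact hcon y hy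
    · rcases hy with rfl | hy
      · intro hmem
        apply hcon x hx
        have := L.inv_mem hmem
        have h2 : (v * (x * y⁻¹) * v⁻¹)⁻¹ = v * (y * x⁻¹) * v⁻¹ := by group
        rwa [h2] at this
      · exact hsep x hx y hy hxy)
  rw [Finset.card_insert_of_notMem hls] at h1
  omega

/-- A single element can be moved across the subgroup at the cost of a finite set. -/
theorem exists_finite_move (v : G)
    (h : ((L.map (MulAut.conj v⁻¹).toMonoidHom).subgroupOf L).FiniteIndex) :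
    ∃ F : Finset G, ∀ l ∈ L, ∃ f ∈ F, v * (l * f⁻¹) * v⁻¹ ∈ L := by
  classical
  obtain ⟨m, hm⟩ := mem_bdd_of_finite L v h
  -- a separated set of largest size
  have hex : ∃ k, (∃ s : Finset G, (s : Set G) ⊆ L ∧ Sep L v s ∧ s.card = k) :=
    ⟨0, ∅, by simp, by intro x hx; simp at hx, by simp⟩
  have hbd : ∀ k, (∃ s : Finset G, (s : Set G) ⊆ L ∧ Sep L v s ∧ s.card = k) → k ≤ m := by
    rintro k ⟨s, hs, hsep, rfl⟩
    exact hm s hs hsep
  let P : ℕ → Prop := fun k => ∃ s : Finset G, (s : Set G) ⊆ L ∧ Sep L v s ∧ s.card = k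
  have hspec : P (Nat.findGreatest P m) := by
    obtain ⟨k, hk⟩ := hex
    exact Nat.findGreatest_spec (P := P) (hbd k hk) hk
  obtain ⟨s, hs, hsep, hcard⟩ := hspec
  refine ⟨s, fun l hl => exists_rep_of_max L v s hs hsep ?_ l hl⟩
  intro t ht htsep
  rw [hcard]
  exact Nat.le_findGreatest (P := P) (hm t ht htsep) ⟨t, ht, htsep, rfl⟩

end alg

section top

variable {G : Type u} [Group G] [TopologicalSpace G] [IsTopologicalGroup G] (L : Subgroup G)

theorem isOpen_sep (hL : IsClosed (L : Set G)) (s : Finset G) : IsOpen {v : G | Sep L v s} := by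
  have : {v : G | Sep L v s} = ⋂ x ∈ s, ⋂ y ∈ s, {v : G | x ≠ y → v * (x * y⁻¹) * v⁻¹ ∉ L} := by
    ext v
    simp [Sep]
  rw [this]
  refine isOpen_biInter_finset fun x _ => isOpen_biInter_finset fun y _ => ?_
  by_cases hxy : x = y
  · simp [hxy]
  · have : {v : G | x ≠ y → v * (x * y⁻¹) * v⁻¹ ∉ L} =
        (fun v : G => v * (x * y⁻¹) * v⁻¹) ⁻¹' ((L : Set G)ᶜ) := by
      ext v
      simp [hxy]
    rw [this]
    exact hL.isOpen_compl.preimage (by fun_prop)

theorem isClosed_bdd (hL : IsClosed (L : Set G)) (m : ℕ) : IsClosed (Bdd L m) := by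
  have : Bdd L m = ⋂ s : {s : Finset G // (s : Set G) ⊆ L ∧ m < s.card},
      {v : G | Sep L v s.1}ᶜ := by
    ext v
    simp only [Bdd, Set.mem_ofPred_eq, Set.mem_iInter, Set.mem_compl_iff, Subtype.forall]
    constructor
    · intro h s hs hsep
      have := h s hs.1 hsep
      omega
    · intro h s hs hsep
      by_contra hlt
      exact h s ⟨hs, by omega⟩ hsep
  rw [this]
  exact isClosed_iInter fun s => (isOpen_sep L hL s.1).isClosed_compl

/-- The local form of the statement: some nonempty open set almost commutes with `L`, with a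
finite set of correction terms. -/
theorem exists_open_move [LocallyCompactSpace G] [T2Space G] (hL : IsClosed (L : Set G))
    (hcomm : ∀ g : G, ((L.map (MulAut.conj g).toMonoidHom).subgroupOf L).FiniteIndex) :
    ∃ (U : Set G) (v₀ : G) (F : Finset G), IsOpen U ∧ v₀ ∈ U ∧
      ∀ v ∈ U, ∀ l ∈ L, ∃ f ∈ F, v * (l * f⁻¹) * v⁻¹ ∈ L := by
  classical
  have hunion : ⋃ m, Bdd L m = Set.univ := by
    rw [Set.eq_univ_iff_forall]
    intro v
    obtain ⟨m, hm⟩ := mem_bdd_of_finite L v (hcomm v⁻¹)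
    exact Set.mem_iUnion.mpr ⟨m, hm⟩
  obtain ⟨m, hm⟩ := nonempty_interior_of_iUnion_of_closed (fun m => isClosed_bdd L hL m) hunion
  let P : ℕ → Prop := fun k => ∃ v ∈ interior (Bdd L m), ∃ s : Finset G,
    (s : Set G) ⊆ L ∧ Sep L v s ∧ s.card = k
  have hbd : ∀ k, P k → k ≤ m := by
    rintro k ⟨v, hv, s, hs, hsep, rfl⟩
    exact (interior_subset hv) s hs hsep
  have h0 : P 0 := by
    obtain ⟨v, hv⟩ := hm
    exact ⟨v, hv, ∅, by simp, by intro x hx; simp at hx, by simp⟩
  have hspec : P (Nat.findGreatest P m) := Nat.findGreatest_spec (P := P) (hbd 0 h0) h0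
  obtain ⟨v₀, hv₀, s, hs, hsep, hcard⟩ := hspec
  refine ⟨interior (Bdd L m) ∩ {v : G | Sep L v s}, v₀, s,
    isOpen_interior.inter (isOpen_sep L hL s), ⟨hv₀, hsep⟩, ?_⟩
  rintro v ⟨hv, hvsep⟩ l hl
  refine exists_rep_of_max L v s hs hvsep ?_ l hl
  intro t ht htsep
  rw [hcard]
  exact Nat.le_findGreatest (P := P) ((interior_subset hv) t ht htsep) ⟨v, hv, t, ht, htsep, rfl⟩

theorem one_side [LocallyCompactSpace G] [T2Space G] (hL : IsClosed (L : Set G))
    (hcomm : ∀ g : G, ((L.map (MulAut.conj g).toMonoidHom).subgroupOf L).FiniteIndex)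
    (C : Set G) (hC : IsCompact C) :
    ∃ C' : Set G, IsCompact C' ∧ C * (L : Set G) ⊆ (L : Set G) * C' := by
  classical
  obtain ⟨U, v₀, F, hU, hv₀, hmove⟩ := exists_open_move L hL hcomm
  obtain ⟨K, hK, hv₀K, hKU⟩ := exists_compact_subset hU hv₀
  refine hC.induction_on (p := fun C => ∃ C' : Set G, IsCompact C' ∧
    C * (L : Set G) ⊆ (L : Set G) * C') ?_ ?_ ?_ ?_
  · exact ⟨∅, isCompact_empty, by simp⟩
  · rintro s t hst ⟨C', hC', h⟩
    exact ⟨C', hC', (Set.mul_subset_mul_right hst).trans h⟩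
  · rintro s t ⟨C₁, hC₁, h₁⟩ ⟨C₂, hC₂, h₂⟩
    refine ⟨C₁ ∪ C₂, hC₁.union hC₂, ?_⟩
    rw [Set.union_mul, Set.mul_union]
    exact Set.union_subset_union h₁ h₂
  · intro x _
    obtain ⟨F', hF'⟩ := exists_finite_move L (x * v₀⁻¹) (hcomm _)
    refine ⟨(fun y => (x * v₀⁻¹) * y) '' K, ?_, ({x * v₀⁻¹} : Set G) * (F' : Set G) * K * (F : Set G),
      ((isCompact_singleton.mul F'.finite_toSet.isCompact).mul hK).mul
        F.finite_toSet.isCompact, ?_⟩
    · apply mem_nhdsWithin_of_mem_nhds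
      have h1 : (fun y => (x * v₀⁻¹) * y) '' K ∈ nhds ((x * v₀⁻¹) * v₀) := by
        have := (Homeomorph.mulLeft (x * v₀⁻¹)).isOpenMap.image_mem_nhds
          (mem_interior_iff_mem_nhds.mp hv₀K)
        simpa using this
      simpa using h1
    · rintro _ ⟨_, ⟨k, hk, rfl⟩, l, hl, rfl⟩
      obtain ⟨f, hf, h1⟩ := hmove k (hKU hk) l hl
      obtain ⟨f', hf', h2⟩ := hF' _ h1
      refine Set.mem_mul.mpr ⟨_, h2, (x * v₀⁻¹) * f' * k * f, ?_, ?_⟩
      · exact Set.mul_mem_mul (Set.mul_mem_mul (Set.mul_mem_mul rfl hf') hk) hf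
      · group

end top

end Pool.Agent.W_MP_5bfb0a_al
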